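import Pool.Agent.U180.NG.Stm2

/-!
# Project NG (helper180), second part, package LDC
-/

set_option autoImplicit false
set_option linter.unusedVariables false

open MeasureTheory Filter Topology Set

namespace Pool.Agent.U480.NG

open Pool.Agent.U180.NG

/-- the floor -/
theorem fl_lim (s : ℝ) : Tendsto (fun R : ℝ => (⌊R * s⌋ : ℝ) / R) atTop (𝓝 s) := by
  rw [tendsto_iff_dist_tendsto_zero]
  refine squeeze_zero' (Eventually.of_forall fun _ => dist_nonneg) ?_ tendsto_inv_atTop_zero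
  filter_upwards [eventually_gt_atTop 0] with R hR
  have h1 := Int.floor_le (R * s)
  have h2 := Int.lt_floor_add_one (R * s)
  rw [Real.dist_eq, show (⌊R * s⌋ : ℝ) / R - s = -((R * s - ⌊R * s⌋) / R) by field_simp; ring,
    abs_neg, abs_div, abs_of_pos hR, ← one_div]
  gcongr
  rw [abs_le]
  constructor <;> linarith

theorem hl_eq {R y : ℝ} {m : ℤ} (hR : 0 < R) :
    hl R y m = R * Real.sqrt (1 - (m / R + y / R) ^ 2) := by
  unfold hl
  rw [show R ^ 2 - ((m : ℝ) + y) ^ 2 = R ^ 2 * (1 - (m / R + y / R) ^ 2) by field_simp,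
    Real.sqrt_mul (sq_nonneg R), Real.sqrt_sq hR.le]

theorem diff_eq {R y y' : ℝ} {m : ℤ} (hR : 0 < R) (h1 : 0 < 1 - ((m : ℝ) / R + y / R) ^ 2)
    (h2 : 0 < 1 - ((m : ℝ) / R + y' / R) ^ 2) :
    hl R y m - hl R y' m = (y' - y) * (2 * (m / R) + (y + y') / R) /
      (Real.sqrt (1 - (m / R + y / R) ^ 2) + Real.sqrt (1 - (m / R + y' / R) ^ 2)) := by
  rw [hl_eq hR, hl_eq hR]
  have ha := Real.sqrt_pos.2 h1
  have hb := Real.sqrt_pos.2 h2
  have ha2 := Real.sq_sqrt h1.le
  have hb2 := Real.sq_sqrt h2.le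
  set a := Real.sqrt (1 - ((m : ℝ) / R + y / R) ^ 2)
  set b := Real.sqrt (1 - ((m : ℝ) / R + y' / R) ^ 2)
  rw [eq_div_iff (by positivity)]
  have h3 : (R * a - R * b) * (a + b) = R * (a ^ 2 - b ^ 2) := by ring
  rw [h3, ha2, hb2]
  field_simp
  ring

/-- the lower bound for the radicands -/
theorem rad {u s e y K : ℝ} (he : 0 < e) (hK : 2 * (|y| + 1) ≤ K) (h1 : -1 + K * e ≤ u)
    (h2 : u ≤ 1 - K * e) (h3 : u ≤ s) (h4 : s < u + e) :
    (1 - |s|) / 4 ≤ 1 - (u + y * e) ^ 2 := by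
  have hu : |u| ≤ 1 - K * e := abs_le.2 ⟨by linarith, h2⟩
  have hs : |u| ≤ |s| + e := by
    have : |u| ≤ |s| + |u - s| := by
      have := abs_add_le s (u - s)
      rwa [show s + (u - s) = u by ring] at this
    have h5 : |u - s| ≤ e := abs_le.2 ⟨by linarith, by linarith⟩
    linarith
  have hye : 2 * (|y| * e) + 2 * e ≤ K * e := by nlinarith
  have hz : |u + y * e| ≤ |u| + |y| * e := by
    refine (abs_add_le _ _).trans ?_
    rw [abs_mul, abs_of_pos he]
  have hz1 : |u + y * e| ≤ 1 := by nlinarith [mul_nonneg (abs_nonneg y) he.le]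
  have h6 : 1 - |u + y * e| ≤ 1 - (u + y * e) ^ 2 := by
    rw [← sq_abs (u + y * e)]
    nlinarith [abs_nonneg (u + y * e)]
  have h7 : (1 - |s|) / 4 ≤ 1 - |u + y * e| := by
    have h8 : 0 ≤ 1 - |u| := by nlinarith [mul_nonneg (abs_nonneg y) he.le]
    linarith
  linarith

/-- the interval of `s` -/
theorem rng {u s e K : ℝ} (he : 0 < e) (hK : 2 ≤ K) (h1 : -1 + K * e ≤ u)
    (h2 : u ≤ 1 - K * e) (h3 : u ≤ s) (h4 : s < u + e) : -1 < s ∧ s < 1 := by
  constructor <;> nlinarith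

theorem bnd {R s y y' d : ℝ} (hR : 0 < R)
    (h1 : -R + 2 * (|y| + |y'| + 1) ≤ (⌊R * s⌋ : ℝ)) (h2 : (⌊R * s⌋ : ℝ) ≤ R - 2 * (|y| + |y'| + 1)) :
    (-1 < s ∧ s < 1) ∧ |max 0 (hl R y ⌊R * s⌋ - hl R y' ⌊R * s⌋ + d)| ≤
      6 * |y' - y| * ((1 - s) ^ (-(1 / 2) : ℝ) + (1 + s) ^ (-(1 / 2) : ℝ)) + |d| := by
  have f1 := Int.floor_le (R * s)
  have f2 := Int.lt_floor_add_one (R * s)
  set m : ℤ := ⌊R * s⌋ with hm
  set u : ℝ := (m : ℝ) / R with hu
  set e : ℝ := 1 / R with he
  have he0 : 0 < e := by positivity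
  have hmu : (m : ℝ) = u * R := by rw [hu]; field_simp
  have heR : e * R = 1 := by rw [he]; field_simp
  set K : ℝ := 2 * (|y| + |y'| + 1) with hK
  have g1 : -1 + K * e ≤ u := by
    rw [hu, he, le_div_iff₀ hR]
    have : (-1 + K * (1 / R)) * R = -R + K := by field_simp
    rw [this]; exact h1
  have g2 : u ≤ 1 - K * e := by
    rw [hu, he, div_le_iff₀ hR]
    have : (1 - K * (1 / R)) * R = R - K := by field_simp
    rw [this]; exact h2
  have g3 : u ≤ s := by rw [hu, div_le_iff₀ hR, mul_comm]; exact f1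
  have g4 : s < u + e := by
    rw [hu, he, ← add_div, lt_div_iff₀ hR, mul_comm]; exact f2
  have hs := rng he0 (by rw [hK]; linarith [abs_nonneg y, abs_nonneg y']) g1 g2 g3 g4
  refine ⟨hs, ?_⟩
  have hyR : y / R = y * e := by rw [he]; ring
  have hyR' : y' / R = y' * e := by rw [he]; ring
  have r1 : (1 - |s|) / 4 ≤ 1 - (u + y / R) ^ 2 := by
    rw [hyR]; exact rad he0 (by rw [hK]; linarith [abs_nonneg y']) g1 g2 g3 g4
  have r2 : (1 - |s|) / 4 ≤ 1 - (u + y' / R) ^ 2 := by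
    rw [hyR']; exact rad he0 (by rw [hK]; linarith [abs_nonneg y]) g1 g2 g3 g4
  have hw : 0 < 1 - |s| := by
    have := abs_lt.2 hs
    linarith
  have hd := diff_eq (y := y) (y' := y') (m := m) hR (by linarith) (by linarith)
  rw [← hu] at hd
  have hA : Real.sqrt (1 - |s|) / 2 ≤ Real.sqrt (1 - (u + y / R) ^ 2) := by
    apply Real.le_sqrt_of_sq_le
    rw [div_pow, Real.sq_sqrt hw.le]
    linarith
  have hB : 0 ≤ Real.sqrt (1 - (u + y' / R) ^ 2) := Real.sqrt_nonneg _
  have hsw : 0 < Real.sqrt (1 - |s|) := Real.sqrt_pos.2 hw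
  have hnum : |2 * u + (y + y') / R| ≤ 3 := by
    have h5 : |(y + y') / R| ≤ 1 := by
      rw [abs_div, abs_of_pos hR, div_le_one hR]
      have := abs_add_le y y'
      linarith [abs_nonneg y, abs_nonneg y']
    have h6 : |u| ≤ 1 := abs_le.2 ⟨by nlinarith [abs_nonneg y, abs_nonneg y'],
      by nlinarith [abs_nonneg y, abs_nonneg y']⟩
    have h7 := abs_add_le (2 * u) ((y + y') / R)
    rw [abs_mul, abs_two] at h7
    linarith
  have hdb : |hl R y m - hl R y' m| ≤ 6 * |y' - y| / Real.sqrt (1 - |s|) := by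
    rw [hd, abs_div, abs_mul, abs_of_pos (by linarith : (0 : ℝ) < Real.sqrt (1 - (u + y / R) ^ 2) +
      Real.sqrt (1 - (u + y' / R) ^ 2)), div_le_div_iff₀ (by linarith) hsw]
    have h8 : |y' - y| * |2 * u + (y + y') / R| ≤ |y' - y| * 3 :=
      mul_le_mul_of_nonneg_left hnum (abs_nonneg _)
    calc |y' - y| * |2 * u + (y + y') / R| * Real.sqrt (1 - |s|)
        ≤ |y' - y| * 3 * Real.sqrt (1 - |s|) := mul_le_mul_of_nonneg_right h8 hsw.le
      _ = 6 * |y' - y| * (Real.sqrt (1 - |s|) / 2) := by ring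
      _ ≤ 6 * |y' - y| * (Real.sqrt (1 - (u + y / R) ^ 2) + Real.sqrt (1 - (u + y' / R) ^ 2)) := by
          apply mul_le_mul_of_nonneg_left _ (by positivity)
          linarith
  have hrp : 1 / Real.sqrt (1 - |s|) ≤ (1 - s) ^ (-(1 / 2) : ℝ) + (1 + s) ^ (-(1 / 2) : ℝ) := by
    rw [one_div, Real.sqrt_eq_rpow, ← Real.rpow_neg hw.le]
    have p1 : 0 ≤ (1 - s) ^ (-(1 / 2) : ℝ) := Real.rpow_nonneg (by linarith [hs.2]) _
    have p2 : 0 ≤ (1 + s) ^ (-(1 / 2) : ℝ) := Real.rpow_nonneg (by linarith [hs.1]) _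
    rcases abs_cases s with ⟨h, _⟩ | ⟨h, _⟩
    · rw [h]; linarith
    · rw [h, sub_neg_eq_add]; linarith
  have hmax : |max 0 (hl R y m - hl R y' m + d)| ≤ |hl R y m - hl R y' m + d| := by
    rw [abs_of_nonneg (le_max_left _ _)]
    exact max_le (abs_nonneg _) (le_abs_self _)
  refine hmax.trans ((abs_add_le _ _).trans ?_)
  gcongr
  refine hdb.trans ?_
  rw [div_eq_mul_one_div]
  exact mul_le_mul_of_nonneg_left hrp (by positivity)

/-- the pointwise limit -/
theorem ptw (y y' d : ℝ) {s : ℝ} (h1 : -1 < s) (h2 : s < 1) :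
    Tendsto (fun R : ℝ => max 0 (hl R y ⌊R * s⌋ - hl R y' ⌊R * s⌋ + d)) atTop
      (𝓝 (max 0 (d - (y - y') * s / Real.sqrt (1 - s ^ 2)))) := by
  have hs : 0 < 1 - s ^ 2 := by nlinarith
  have hu := fl_lim s
  have hyl : ∀ c : ℝ, Tendsto (fun R : ℝ => c / R) atTop (𝓝 0) := fun c =>
    tendsto_const_nhds.div_atTop tendsto_id
  have hrad : ∀ c : ℝ, Tendsto (fun R : ℝ => 1 - ((⌊R * s⌋ : ℝ) / R + c / R) ^ 2) atTop
      (𝓝 (1 - s ^ 2)) := by
    intro c
    have := ((hu.add (hyl c)).pow 2).const_sub 1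
    simpa using this
  have hsq : ∀ c : ℝ, Tendsto (fun R : ℝ => Real.sqrt (1 - ((⌊R * s⌋ : ℝ) / R + c / R) ^ 2)) atTop
      (𝓝 (Real.sqrt (1 - s ^ 2))) := fun c => (Real.continuous_sqrt.tendsto _).comp (hrad c)
  have hsp : 0 < Real.sqrt (1 - s ^ 2) := Real.sqrt_pos.2 hs
  have hmain : Tendsto (fun R : ℝ => (y' - y) * (2 * ((⌊R * s⌋ : ℝ) / R) + (y + y') / R) /
      (Real.sqrt (1 - ((⌊R * s⌋ : ℝ) / R + y / R) ^ 2) +
        Real.sqrt (1 - ((⌊R * s⌋ : ℝ) / R + y' / R) ^ 2))) atTop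
      (𝓝 ((y' - y) * (2 * s + 0) / (Real.sqrt (1 - s ^ 2) + Real.sqrt (1 - s ^ 2)))) :=
    (((hu.const_mul 2).add (hyl (y + y'))).const_mul (y' - y)).div ((hsq y).add (hsq y'))
      (by positivity)
  have hval : (y' - y) * (2 * s + 0) / (Real.sqrt (1 - s ^ 2) + Real.sqrt (1 - s ^ 2)) + d =
      d - (y - y') * s / Real.sqrt (1 - s ^ 2) := by
    field_simp
    ring
  rw [← hval]
  refine Tendsto.congr' ?_ ((tendsto_const_nhds (x := (0 : ℝ))).max (hmain.add_const d))
  filter_upwards [eventually_gt_atTop 0, (hrad y).eventually (lt_mem_nhds hs),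
    (hrad y').eventually (lt_mem_nhds hs)] with R hR h3 h4
  rw [diff_eq hR h3 h4]

open Classical in
/-- the step function -/
noncomputable def FF (y y' d R s : ℝ) : ℝ :=
  if ⌊R * s⌋ ∈ Finset.Icc ⌈-R + 2 * (|y| + |y'| + 1)⌉ ⌊R - 2 * (|y| + |y'| + 1)⌋ then
    max 0 (hl R y ⌊R * s⌋ - hl R y' ⌊R * s⌋ + d) else 0

theorem FF_eq (y y' d : ℝ) {R : ℝ} (hR : 0 < R) (s : ℝ) : FF y y' d R s =
    ∑ m ∈ Finset.Icc ⌈-R + 2 * (|y| + |y'| + 1)⌉ ⌊R - 2 * (|y| + |y'| + 1)⌋,
      (Ico ((m : ℝ) / R) (((m : ℝ) + 1) / R)).indicator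
        (fun _ => max 0 (hl R y m - hl R y' m + d)) s := by
  classical
  have h : ∀ m : ℤ, (Ico ((m : ℝ) / R) (((m : ℝ) + 1) / R)).indicator
        (fun _ => max 0 (hl R y m - hl R y' m + d)) s =
      if ⌊R * s⌋ = m then max 0 (hl R y m - hl R y' m + d) else 0 := by
    intro m
    rw [indicator_apply]
    congr 1
    rw [eq_iff_iff, mem_Ico, div_le_iff₀ hR, lt_div_iff₀ hR, Int.floor_eq_iff, mul_comm s R]
  simp only [h]
  rw [Finset.sum_ite_eq]
  rfl

theorem FF_int (y y' d : ℝ) {R : ℝ} (hR : 0 < R) : ∫ s, FF y y' d R s =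
    (∑ m ∈ Finset.Icc ⌈-R + 2 * (|y| + |y'| + 1)⌉ ⌊R - 2 * (|y| + |y'| + 1)⌋,
      max 0 (hl R y m - hl R y' m + d)) / R := by
  simp only [FF_eq y y' d hR]
  have hv : ∀ m : ℤ, volume (Ico ((m : ℝ) / R) (((m : ℝ) + 1) / R)) ≠ ⊤ := by
    intro m
    rw [Real.volume_Ico]
    exact ENNReal.ofReal_ne_top
  rw [integral_finset_sum, Finset.sum_div]
  · refine Finset.sum_congr rfl fun m _ => ?_
    rw [integral_indicator_const _ measurableSet_Ico, measureReal_def, Real.volume_Ico,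
      ENNReal.toReal_ofReal (by rw [← sub_div]; simp only [add_sub_cancel_left]; positivity),
      smul_eq_mul]
    field_simp
    ring
  · intro m _
    exact (integrable_indicator_iff measurableSet_Ico).2 (integrableOn_const (hs := hv m))

theorem t_LDC : S_LDC := by
  intro y y' d
  have hI1 : IntervalIntegrable (fun x : ℝ => (1 - x) ^ (-(1 / 2) : ℝ)) volume (-1) 1 := by
    have h := (intervalIntegral.intervalIntegrable_rpow' (a := 2) (b := 0) (r := -(1 / 2))
      (by norm_num)).comp_sub_left 1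
    norm_num at h
    norm_num
    exact h
  have hI2 : IntervalIntegrable (fun x : ℝ => (1 + x) ^ (-(1 / 2) : ℝ)) volume (-1) 1 := by
    have h := (intervalIntegral.intervalIntegrable_rpow' (a := 0) (b := 2) (r := -(1 / 2))
      (by norm_num)).comp_add_left 1
    norm_num at h
    norm_num
    exact h
  set bound : ℝ → ℝ := (Ioo (-1 : ℝ) 1).indicator (fun s =>
    6 * |y' - y| * ((1 - s) ^ (-(1 / 2) : ℝ) + (1 + s) ^ (-(1 / 2) : ℝ)) + |d|) with hb
  have hbi : Integrable bound := by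
    rw [hb, integrable_indicator_iff measurableSet_Ioo,
      ← intervalIntegrable_iff_integrableOn_Ioo_of_le (by norm_num)]
    exact ((hI1.add hI2).const_mul _).add intervalIntegrable_const
  have hlim : Tendsto (fun R : ℝ => ∫ s, FF y y' d R s) atTop
      (𝓝 (∫ s, (Ioo (-1 : ℝ) 1).indicator
        (fun s => max 0 (d - (y - y') * s / Real.sqrt (1 - s ^ 2))) s)) := by
    refine tendsto_integral_filter_of_dominated_convergence bound ?_ ?_ hbi ?_
    · filter_upwards [eventually_gt_atTop 0] with R hR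
      rw [show FF y y' d R = _ from funext (FF_eq y y' d hR)]
      refine (Finset.measurable_sum _ fun m _ => ?_).aestronglyMeasurable
      exact measurable_const.indicator measurableSet_Ico
    · filter_upwards [eventually_gt_atTop 0] with R hR
      refine Eventually.of_forall fun s => ?_
      unfold FF
      split_ifs with h
      · rw [Finset.mem_Icc, Int.ceil_le, Int.le_floor] at h
        obtain ⟨h1, h2⟩ := bnd (y := y) (y' := y') (d := d) hR h.1 h.2
        rw [hb, indicator_of_mem (show s ∈ Ioo (-1 : ℝ) 1 from h1), Real.norm_eq_abs]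
        exact h2
      · rw [norm_zero, hb]
        refine indicator_nonneg (fun s hs => ?_) s
        have p1 : 0 ≤ (1 - s) ^ (-(1 / 2) : ℝ) := Real.rpow_nonneg (by linarith [hs.2]) _
        have p2 : 0 ≤ (1 + s) ^ (-(1 / 2) : ℝ) := Real.rpow_nonneg (by linarith [hs.1]) _
        positivity
    · refine Eventually.of_forall fun s => ?_
      by_cases hs : s ∈ Ioo (-1 : ℝ) 1
      · rw [indicator_of_mem hs]
        refine (ptw y y' d hs.1 hs.2).congr' ?_
        have hu := fl_lim s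
        have h1 : Tendsto (fun R : ℝ => (⌊R * s⌋ : ℝ) / R + 2 * (|y| + |y'| + 1) / R) atTop
            (𝓝 (s + 0)) := hu.add (tendsto_const_nhds.div_atTop tendsto_id)
        have h2 : Tendsto (fun R : ℝ => (⌊R * s⌋ : ℝ) / R - 2 * (|y| + |y'| + 1) / R) atTop
            (𝓝 (s - 0)) := hu.sub (tendsto_const_nhds.div_atTop tendsto_id)
        filter_upwards [eventually_gt_atTop 0,
          h1.eventually (gt_mem_nhds (show s + 0 < 1 by linarith [hs.2])),
          h2.eventually (lt_mem_nhds (show -1 < s - 0 by linarith [hs.1]))] with R hR h3 h4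
        unfold FF
        rw [if_pos]
        rw [Finset.mem_Icc, Int.ceil_le, Int.le_floor]
        rw [← add_div, div_lt_one hR] at h3
        rw [← sub_div, lt_div_iff₀ hR] at h4
        constructor <;> linarith
      · rw [indicator_of_notMem hs]
        refine tendsto_const_nhds.congr' ?_
        filter_upwards [eventually_gt_atTop 0] with R hR
        unfold FF
        rw [if_neg]
        intro h
        rw [Finset.mem_Icc, Int.ceil_le, Int.le_floor] at h
        exact hs (bnd (y := y) (y' := y') (d := d) hR h.1 h.2).1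
  rw [integral_indicator measurableSet_Ioo, ← integral_Ioc_eq_integral_Ioo,
    ← intervalIntegral.integral_of_le (by norm_num)] at hlim
  refine hlim.congr' ?_
  filter_upwards [eventually_gt_atTop 0] with R hR
  exact FF_int y y' d hR

end Pool.Agent.U480.NG
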